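import Mathlib
import Pool.Agent.H31C.Defs

/-!
The exploration path of critical bond percolation in the slit strip, started at the tip of the
slit (left bank wired, right bank free), as an explicit right-hand-rule walker.
-/

namespace Pool.Agent.H492E

open Pool.Agent.H988R2.Perc hiding X
open Pool.Agent.H31C Finset MeasureTheory

/-- the four directions, counterclockwise: `0` = right, `1` = up, `2` = left, `3` = down -/
def vec (d : Fin 4) : ℤ × ℤ :=
  match d with
  | 0 => (1, 0)
  | 1 => (0, 1)
  | 2 => (-1, 0)
  | 3 => (0, -1)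

/-- the left bank of the slit: column `a`, `u + v ≥ 1` -/
def Bank (a : ℕ) (x : ℤ × ℤ) : Prop := x.1 - x.2 = a ∧ 1 ≤ x.1 + x.2

open Classical in
/-- One step of the exploration path in the configuration `ω`.  The path stands at the vertex `x`
(on its right) and looks at the edge from `x` in direction `d`: if it is an open edge of the slit
strip, the path moves along it and turns counterclockwise; otherwise it turns clockwise.
The left bank is wired: at a vertex of the bank the path looking at the slit (`d = 0`) moves to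
the next vertex `x + (1,1)` of the bank. -/
noncomputable def step (a L : ℕ) (ω : Conf) (s : (ℤ × ℤ) × Fin 4) : (ℤ × ℤ) × Fin 4 :=
  if Bank a s.1 ∧ s.2 = 0 then (s.1 + (1, 1), 2)
  else if SlitAdj a L ω s.1 (s.1 + vec s.2) then (s.1 + vec s.2, s.2 + 1)
  else (s.1, s.2 + 3)

/-- the lowest vertex of the left bank; the path starts there, looking down -/
def start (a : ℕ) : (ℤ × ℤ) × Fin 4 := ((((a:ℤ) + 1) / 2, (1 - (a:ℤ)) / 2), 3)

/-- the exploration path -/
noncomputable def walk (a b : ℕ) (ω : Conf) (n : ℕ) : (ℤ × ℤ) × Fin 4 :=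
  (step a (a+b+1) ω)^[n] (start a)

/-- the path is at the right wall (column `a+b+1`) -/
def hitR (a b : ℕ) (s : (ℤ × ℤ) × Fin 4) : Prop := s.1.1 - s.1.2 = ((a + b + 1 : ℕ) : ℤ)

/-- the path is at the left wall (column `0`): it looks out of the strip -/
def hitL (s : (ℤ × ℤ) × Fin 4) : Prop := s.1.1 - s.1.2 = 0 ∧ s.2 = 2

/-- the path reaches the right wall before the left wall -/
def ER (a b : ℕ) : Set Conf :=
  {ω | ∃ n, hitR a b (walk a b ω n) ∧ ∀ m < n, ¬ hitL (walk a b ω m)}

/-- the path reaches the left wall before the right wall -/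
def EL (a b : ℕ) : Set Conf :=
  {ω | ∃ n, hitL (walk a b ω n) ∧ ∀ m < n, ¬ hitR a b (walk a b ω m)}

/-- the mirror image of the dual configuration (`K = (a+b+2)/2`) -/
def mir (K : ℤ) (ω : Conf) : Conf := fun e =>
  match e with
  | (u, v, false) => !(ω (v + K - 1, u + 1 - K, false))
  | (u, v, true) => !(ω (v + K, u - K, true))

/-- all edges of the strip between the columns `c` and `c'` and the lines `u + v = h`,
`u + v = h + 1` have the state `t` -/
def Row (c c' : ℤ) (h : ℤ) (t : Bool) (ω : Conf) : Prop :=
  ∀ u v : ℤ, (c ≤ u - v → u - v + 1 ≤ c' → u + v = h → ω (u, v, false) = t) ∧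
    (c ≤ u - v - 1 → u - v ≤ c' → u + v = h → ω (u, v, true) = t)

/-- the three barriers: an open row of the lower strip, an open row of the upper left strip, a
closed row of the upper right strip -/
def Barr (a b : ℕ) (ω : Conf) : Prop :=
  (∃ h : ℤ, h ≤ -1 ∧ Row 0 (a + b + 1) h true ω) ∧ (∃ h : ℤ, 1 ≤ h ∧ Row 0 a h true ω) ∧
    (∃ h : ℤ, 1 ≤ h ∧ Row (a + 1) (a + b + 1) h false ω)

end Pool.Agent.H492E
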