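import Pool.Agent.H492E.Defs

/-!
Task E1: if the exploration path reaches the right wall, then the left bank is joined to the
right wall by an open path of the slit strip.
-/

namespace Pool.Agent.H492E

open Pool.Agent.H988R2.Perc hiding X
open Pool.Agent.H31C Finset MeasureTheory

theorem E1_start (a : ℕ) (ha : Odd a) : Bank a (start a).1 := by
  obtain ⟨k, rfl⟩ := ha
  constructor
  · simp only [start]
    push_cast
    omega
  · simp only [start]
    push_cast
    omega

theorem E1_step (a L : ℕ) (ω : Conf) (s : (ℤ × ℤ) × Fin 4)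
    (h : ∃ x : ℤ × ℤ, Bank a x ∧ Relation.ReflTransGen (SlitAdj a L ω) x s.1) :
    ∃ x : ℤ × ℤ, Bank a x ∧ Relation.ReflTransGen (SlitAdj a L ω) x (step a L ω s).1 := by
  unfold step
  split_ifs with h1 h2
  · refine ⟨s.1 + (1, 1), ?_, Relation.ReflTransGen.refl⟩
    obtain ⟨h3, h4⟩ := h1.1
    constructor
    · simp only [Prod.fst_add, Prod.snd_add]
      omega
    · simp only [Prod.fst_add, Prod.snd_add]
      omega
  · obtain ⟨x, hx, hr⟩ := h
    exact ⟨x, hx, hr.tail h2⟩
  · exact h

theorem E1_walk (a b : ℕ) (ha : Odd a) (ω : Conf) (n : ℕ) :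
    ∃ x : ℤ × ℤ, Bank a x ∧
      Relation.ReflTransGen (SlitAdj a (a + b + 1) ω) x (walk a b ω n).1 := by
  induction n with
  | zero => exact ⟨_, E1_start a ha, Relation.ReflTransGen.refl⟩
  | succ n ih =>
    have h : walk a b ω (n + 1) = step a (a + b + 1) ω (walk a b ω n) := by
      unfold walk
      rw [Function.iterate_succ_apply']
    rw [h]
    exact E1_step a (a + b + 1) ω _ ih

theorem E1_right (a b : ℕ) (ha : Odd a) (hb : Odd b) : ER a b ⊆ Cross a b := by
  have _ := hb
  rintro ω ⟨n, hn, -⟩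
  obtain ⟨x, ⟨hx1, hx2⟩, hr⟩ := E1_walk a b ha ω n
  exact ⟨x, (walk a b ω n).1, hx1, hx2, hn, hr⟩

end Pool.Agent.H492E
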