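import Pool.Agent.H492E.Defs

/-!
The dual invariant of the exploration path: on its left there is a path of the mirrored dual
configuration from the mirrored bank.
-/

namespace Pool.Agent.H492E

open Pool.Agent.H988R2.Perc hiding X
open Pool.Agent.H31C Finset MeasureTheory

namespace E2

/-- reachable from the mirrored bank -/
def Rch (a b : ℕ) (K : ℤ) (ω : Conf) (z : ℤ × ℤ) : Prop :=
  ∃ x : ℤ × ℤ, x.1 - x.2 = b ∧ 1 ≤ x.1 + x.2 ∧
    Relation.ReflTransGen (SlitAdj b (b + a + 1) (mir K ω)) x z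

/-- the mirror image of the dual vertex with index `(u,v)` -/
def ph (K u v : ℤ) : ℤ × ℤ := (v + K, u + 1 - K)

/-- the mirror image of the dual vertex on the left of the path -/
def yv (K : ℤ) (s : (ℤ × ℤ) × Fin 4) : ℤ × ℤ :=
  match s.2 with
  | 0 => ph K s.1.1 s.1.2
  | 1 => ph K (s.1.1 - 1) s.1.2
  | 2 => ph K (s.1.1 - 1) (s.1.2 - 1)
  | 3 => ph K s.1.1 (s.1.2 - 1)

/-- the invariant -/
def Inv (a b : ℕ) (K : ℤ) (ω : Conf) (s : (ℤ × ℤ) × Fin 4) : Prop :=
  0 ≤ s.1.1 - s.1.2 ∧ s.1.1 - s.1.2 ≤ a + b + 1 ∧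
    (s.1.1 - s.1.2 = 0 → s.2 = 2 ∨ s.2 = 3) ∧
    (s.1.1 - s.1.2 = a → s.2 = 3 → s.1.1 + s.1.2 ≤ 1) ∧
    ((s.1.1 - s.1.2 = a + 1 ∧ 2 ≤ s.1.1 + s.1.2 ∧ s.2 = 1) ∨ Rch a b K ω (yv K s))

theorem step0 (a L : ℕ) (ω : Conf) (p r : ℤ) :
    (p - r = a ∧ 1 ≤ p + r ∧ step a L ω ((p, r), 0) = ((p + 1, r + 1), 2)) ∨
    (¬ (p - r = a ∧ 1 ≤ p + r) ∧ SlitAdj a L ω (p, r) (p + 1, r) ∧
      step a L ω ((p, r), 0) = ((p + 1, r), 1)) ∨
    (¬ (p - r = a ∧ 1 ≤ p + r) ∧ ¬ SlitAdj a L ω (p, r) (p + 1, r) ∧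
      step a L ω ((p, r), 0) = ((p, r), 3)) := by
  by_cases h1 : p - r = a ∧ 1 ≤ p + r
  · left
    refine ⟨h1.1, h1.2, ?_⟩
    unfold step
    rw [if_pos ⟨h1, rfl⟩]
    rfl
  · right
    have e : (p, r) + vec 0 = (p + 1, r) := by simp [vec]
    by_cases h2 : SlitAdj a L ω (p, r) (p + 1, r)
    · left
      refine ⟨h1, h2, ?_⟩
      unfold step
      rw [if_neg (fun h => h1 h.1), if_pos (show SlitAdj a L ω (p, r) ((p, r) + vec 0) by
        rw [e]; exact h2)]
      show ((p, r) + vec 0, (0 : Fin 4) + 1) = _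
      rw [e]
      rfl
    · right
      refine ⟨h1, h2, ?_⟩
      unfold step
      rw [if_neg (fun h => h1 h.1), if_neg (show ¬ SlitAdj a L ω (p, r) ((p, r) + vec 0) by
        rw [e]; exact h2)]
      rfl

theorem step1 (a L : ℕ) (ω : Conf) (p r : ℤ) :
    (SlitAdj a L ω (p, r) (p, r + 1) ∧ step a L ω ((p, r), 1) = ((p, r + 1), 2)) ∨
    (¬ SlitAdj a L ω (p, r) (p, r + 1) ∧ step a L ω ((p, r), 1) = ((p, r), 0)) := by
  have e : (p, r) + vec 1 = (p, r + 1) := by simp [vec]
  by_cases h2 : SlitAdj a L ω (p, r) (p, r + 1)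
  · left
    refine ⟨h2, ?_⟩
    unfold step
    rw [if_neg (fun h => absurd (show (1 : Fin 4) = 0 from h.2) (by decide)),
      if_pos (show SlitAdj a L ω (p, r) ((p, r) + vec 1) by rw [e]; exact h2)]
    show ((p, r) + vec 1, (1 : Fin 4) + 1) = _
    rw [e]
    rfl
  · right
    refine ⟨h2, ?_⟩
    unfold step
    rw [if_neg (fun h => absurd (show (1 : Fin 4) = 0 from h.2) (by decide)),
      if_neg (show ¬ SlitAdj a L ω (p, r) ((p, r) + vec 1) by rw [e]; exact h2)]
    rfl

theorem step2 (a L : ℕ) (ω : Conf) (p r : ℤ) :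
    (SlitAdj a L ω (p, r) (p - 1, r) ∧ step a L ω ((p, r), 2) = ((p - 1, r), 3)) ∨
    (¬ SlitAdj a L ω (p, r) (p - 1, r) ∧ step a L ω ((p, r), 2) = ((p, r), 1)) := by
  have e : (p, r) + vec 2 = (p - 1, r) := by simp [vec, sub_eq_add_neg]
  by_cases h2 : SlitAdj a L ω (p, r) (p - 1, r)
  · left
    refine ⟨h2, ?_⟩
    unfold step
    rw [if_neg (fun h => absurd (show (2 : Fin 4) = 0 from h.2) (by decide)),
      if_pos (show SlitAdj a L ω (p, r) ((p, r) + vec 2) by rw [e]; exact h2)]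
    show ((p, r) + vec 2, (2 : Fin 4) + 1) = _
    rw [e]
    rfl
  · right
    refine ⟨h2, ?_⟩
    unfold step
    rw [if_neg (fun h => absurd (show (2 : Fin 4) = 0 from h.2) (by decide)),
      if_neg (show ¬ SlitAdj a L ω (p, r) ((p, r) + vec 2) by rw [e]; exact h2)]
    rfl

theorem step3 (a L : ℕ) (ω : Conf) (p r : ℤ) :
    (SlitAdj a L ω (p, r) (p, r - 1) ∧ step a L ω ((p, r), 3) = ((p, r - 1), 0)) ∨
    (¬ SlitAdj a L ω (p, r) (p, r - 1) ∧ step a L ω ((p, r), 3) = ((p, r), 2)) := by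
  have e : (p, r) + vec 3 = (p, r - 1) := by simp [vec, sub_eq_add_neg]
  by_cases h2 : SlitAdj a L ω (p, r) (p, r - 1)
  · left
    refine ⟨h2, ?_⟩
    unfold step
    rw [if_neg (fun h => absurd (show (3 : Fin 4) = 0 from h.2) (by decide)),
      if_pos (show SlitAdj a L ω (p, r) ((p, r) + vec 3) by rw [e]; exact h2)]
    show ((p, r) + vec 3, (3 : Fin 4) + 1) = _
    rw [e]
    rfl
  · right
    refine ⟨h2, ?_⟩
    unfold step
    rw [if_neg (fun h => absurd (show (3 : Fin 4) = 0 from h.2) (by decide)),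
      if_neg (show ¬ SlitAdj a L ω (p, r) ((p, r) + vec 3) by rw [e]; exact h2)]
    rfl

theorem Rch.step {a b : ℕ} {K : ℤ} {ω : Conf} {z z' : ℤ × ℤ} (h : Rch a b K ω z)
    (h' : SlitAdj b (b + a + 1) (mir K ω) z z') : Rch a b K ω z' := by
  obtain ⟨x, h1, h2, h3⟩ := h
  exact ⟨x, h1, h2, h3.tail h'⟩

/-- the dual edge of a closed horizontal edge -/
theorem dual_h {a b : ℕ} {K : ℤ} (hK : 2 * K = a + b + 2) {ω : Conf} {p r : ℤ}
    (h : ω (p, r, false) = false) (h0 : 0 ≤ p - r) (h1 : p - r + 1 ≤ a + b + 1)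
    (h2 : ¬ (p - r = a ∧ 1 ≤ p + r)) :
    SlitAdj b (b + a + 1) (mir K ω) (ph K p r) (ph K p (r - 1)) ∧
      SlitAdj b (b + a + 1) (mir K ω) (ph K p (r - 1)) (ph K p r) := by
  have e : mir K ω (r - 1 + K, p + 1 - K, false) = true := by
    have e1 : p + 1 - K + K - 1 = p := by ring
    have e2 : r - 1 + K + 1 - K = r := by ring
    simp only [mir, e1, e2, h, Bool.not_false]
  have e3 : r - 1 + K + 1 = r + K := by ring
  unfold SlitAdj ph OpenAdj
  simp only
  push_cast
  refine ⟨⟨?_, ?_, ?_, ?_, ?_, ?_⟩, ⟨?_, ?_, ?_, ?_, ?_, ?_⟩⟩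
  · right; left
    exact ⟨by rw [e3], e⟩
  · omega
  · omega
  · omega
  · omega
  · omega
  · left
    exact ⟨by rw [e3], e⟩
  · omega
  · omega
  · omega
  · omega
  · omega

/-- the dual edge of a closed vertical edge -/
theorem dual_v {a b : ℕ} {K : ℤ} (hK : 2 * K = a + b + 2) {ω : Conf} {p r : ℤ}
    (h : ω (p, r, true) = false) (h0 : 0 ≤ p - r - 1) (h1 : p - r ≤ a + b + 1)
    (h2 : ¬ (p - r = a + 1 ∧ 1 ≤ p + r)) :
    SlitAdj b (b + a + 1) (mir K ω) (ph K (p - 1) r) (ph K p r) ∧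
      SlitAdj b (b + a + 1) (mir K ω) (ph K p r) (ph K (p - 1) r) := by
  have e : mir K ω (r + K, p - 1 + 1 - K, true) = true := by
    have e1 : p - 1 + 1 - K + K = p := by ring
    have e2 : r + K - K = r := by ring
    simp only [mir, e1, e2, h, Bool.not_false]
  have e3 : p - 1 + 1 - K + 1 = p + 1 - K := by ring
  unfold SlitAdj ph OpenAdj
  simp only
  push_cast
  refine ⟨⟨?_, ?_, ?_, ?_, ?_, ?_⟩, ⟨?_, ?_, ?_, ?_, ?_, ?_⟩⟩
  · right; right; left
    exact ⟨by rw [e3], e⟩
  · omega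
  · omega
  · omega
  · omega
  · omega
  · right; right; right
    exact ⟨by rw [e3], e⟩
  · omega
  · omega
  · omega
  · omega
  · omega

theorem inv_step {a b : ℕ} (ha : Odd a) {K : ℤ} (hK : 2 * K = a + b + 2) {ω : Conf}
    {s : (ℤ × ℤ) × Fin 4} (h : Inv a b K ω s) (hL : ¬ hitL s) (hR : ¬ hitR a b s) :
    Inv a b K ω (step a (a + b + 1) ω s) := by
  obtain ⟨k, rfl⟩ := ha
  obtain ⟨⟨p, r⟩, d⟩ := s
  unfold Inv at h
  unfold hitL at hL
  unfold hitR at hR
  simp only at h hL hR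
  obtain ⟨hA, hA', hB, hC, hD⟩ := h
  have hd : d = 0 ∨ d = 1 ∨ d = 2 ∨ d = 3 := by fin_cases d <;> simp
  rcases hd with rfl | rfl | rfl | rfl
  · -- looking right
    have hD' : Rch (2 * k + 1) b K ω (ph K p r) := by
      rcases hD with h | h
      · exact absurd h.2.2 (by decide)
      · exact h
    have hB' : p - r ≠ 0 := fun h => by
      rcases hB h with h | h <;> exact absurd h (by decide)
    rcases step0 (2 * k + 1) (2 * k + 1 + b + 1) ω p r with ⟨h1, h2, h3⟩ | ⟨h1, h2, h3⟩ | ⟨h1, h2, h3⟩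
    · rw [h3]
      refine ⟨?_, ?_, ?_, ?_, Or.inr ?_⟩
      · simp only; omega
      · simp only; omega
      · intro h; simp only at h; omega
      · intro _ h; exact absurd (show (2 : Fin 4) = 3 from h) (by decide)
      · show Rch (2 * k + 1) b K ω (ph K (p + 1 - 1) (r + 1 - 1))
        rw [add_sub_cancel_right, add_sub_cancel_right]
        exact hD'
    · rw [h3]
      obtain ⟨-, h4, h5, h6, h7, h8⟩ := h2
      simp only at h4 h5 h6 h7 h8
      refine ⟨?_, ?_, ?_, ?_, Or.inr ?_⟩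
      · simp only; omega
      · simp only; push_cast at h7 ⊢; omega
      · intro h; simp only at h; omega
      · intro _ h; exact absurd (show (1 : Fin 4) = 3 from h) (by decide)
      · show Rch (2 * k + 1) b K ω (ph K (p + 1 - 1) r)
        rw [add_sub_cancel_right]
        exact hD'
    · rw [h3]
      have hc : ω (p, r, false) = false := by
        by_contra hne
        rw [Bool.not_eq_false] at hne
        apply h2
        refine ⟨Or.inl ⟨rfl, hne⟩, ?_, ?_, ?_, ?_, ?_⟩ <;> simp only <;> push_cast at hR ⊢ <;> omega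
      have hd := dual_h hK hc hA (by push_cast at hR ⊢; omega) h1
      refine ⟨hA, hA', ?_, ?_, Or.inr ?_⟩
      · intro h; exact absurd h hB'
      · intro h _
        simp only at h ⊢
        omega
      · exact hD'.step hd.1
  · -- looking up
    have hB' : p - r ≠ 0 := fun h => by
      rcases hB h with h | h <;> exact absurd h (by decide)
    rcases step1 (2 * k + 1) (2 * k + 1 + b + 1) ω p r with ⟨h2, h3⟩ | ⟨h2, h3⟩
    · rw [h3]
      obtain ⟨-, h4, h5, h6, h7, h8⟩ := h2
      simp only at h4 h5 h6 h7 h8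
      refine ⟨?_, ?_, ?_, ?_, Or.inr ?_⟩
      · simp only; omega
      · simp only; push_cast at h7 ⊢; omega
      · intro _; exact Or.inl rfl
      · intro _ h; exact absurd (show (2 : Fin 4) = 3 from h) (by decide)
      · show Rch (2 * k + 1) b K ω (ph K (p - 1) (r + 1 - 1))
        rw [add_sub_cancel_right]
        rcases hD with h | h
        · exfalso
          apply h8
          push_cast at h ⊢
          omega
        · exact h
    · rw [h3]
      by_cases hP : p - r = ((2 * k + 1 : ℕ) : ℤ) + 1 ∧ 2 ≤ p + r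
      · refine ⟨hA, hA', ?_, ?_, Or.inr ?_⟩
        · intro h; exact absurd h hB'
        · intro _ h; exact absurd (show (0 : Fin 4) = 3 from h) (by decide)
        · refine ⟨ph K p r, ?_, ?_, Relation.ReflTransGen.refl⟩
          · unfold ph
            simp only
            omega
          · unfold ph
            simp only
            omega
      · have hD' : Rch (2 * k + 1) b K ω (ph K (p - 1) r) := by
          rcases hD with h | h
          · exact absurd ⟨h.1, h.2.1⟩ hP
          · exact h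
        have hP' : ¬ (p - r = ((2 * k + 1 : ℕ) : ℤ) + 1 ∧ 1 ≤ p + r) := by
          push_cast at hP ⊢
          omega
        have hc : ω (p, r, true) = false := by
          by_contra hne
          rw [Bool.not_eq_false] at hne
          apply h2
          refine ⟨Or.inr (Or.inr (Or.inl ⟨rfl, hne⟩)), ?_, ?_, ?_, ?_, ?_⟩ <;> simp only <;>
            push_cast at hR hP' ⊢ <;> omega
        have hd := dual_v hK hc (by omega) hA' hP'
        refine ⟨hA, hA', ?_, ?_, Or.inr ?_⟩
        · intro h; exact absurd h hB'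
        · intro _ h; exact absurd (show (0 : Fin 4) = 3 from h) (by decide)
        · exact hD'.step hd.1
  · -- looking left
    have hD' : Rch (2 * k + 1) b K ω (ph K (p - 1) (r - 1)) := by
      rcases hD with h | h
      · exact absurd h.2.2 (by decide)
      · exact h
    have hB' : p - r ≠ 0 := fun h => hL ⟨h, rfl⟩
    rcases step2 (2 * k + 1) (2 * k + 1 + b + 1) ω p r with ⟨h2, h3⟩ | ⟨h2, h3⟩
    · rw [h3]
      obtain ⟨-, h4, h5, h6, h7, h8⟩ := h2
      simp only at h4 h5 h6 h7 h8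
      refine ⟨?_, ?_, ?_, ?_, Or.inr ?_⟩
      · simp only; omega
      · simp only; push_cast at h7 ⊢; omega
      · intro _; exact Or.inr rfl
      · intro h _
        simp only at h ⊢
        push_cast at h h8
        omega
      · exact hD'
    · rw [h3]
      by_cases hP : p - r = ((2 * k + 1 : ℕ) : ℤ) + 1 ∧ 2 ≤ p + r
      · refine ⟨hA, hA', ?_, ?_, Or.inl ⟨hP.1, hP.2, rfl⟩⟩
        · intro h; exact absurd h hB'
        · intro _ h; exact absurd (show (1 : Fin 4) = 3 from h) (by decide)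
      · have hc : ω (p - 1, r, false) = false := by
          by_contra hne
          rw [Bool.not_eq_false] at hne
          apply h2
          refine ⟨Or.inr (Or.inl ⟨by simp, hne⟩), ?_, ?_, ?_, ?_, ?_⟩ <;> simp only <;>
            push_cast at hR hP ⊢ <;> omega
        have hd := dual_h hK hc (by omega) (by omega) (by push_cast at hP ⊢; omega)
        refine ⟨hA, hA', ?_, ?_, Or.inr ?_⟩
        · intro h; exact absurd h hB'
        · intro _ h; exact absurd (show (1 : Fin 4) = 3 from h) (by decide)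
        · exact hD'.step hd.2
  · -- looking down
    have hD' : Rch (2 * k + 1) b K ω (ph K p (r - 1)) := by
      rcases hD with h | h
      · exact absurd h.2.2 (by decide)
      · exact h
    rcases step3 (2 * k + 1) (2 * k + 1 + b + 1) ω p r with ⟨h2, h3⟩ | ⟨h2, h3⟩
    · rw [h3]
      obtain ⟨-, h4, h5, h6, h7, h8⟩ := h2
      simp only at h4 h5 h6 h7 h8
      refine ⟨?_, ?_, ?_, ?_, Or.inr ?_⟩
      · simp only; omega
      · simp only; push_cast at h7 ⊢; omega
      · intro h; simp only at h; omega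
      · intro _ h; exact absurd (show (0 : Fin 4) = 3 from h) (by decide)
      · exact hD'
    · rw [h3]
      have hC' : p - r = ((2 * k + 1 : ℕ) : ℤ) → p + r ≤ 1 := fun h => hC h rfl
      have hc : ω (p, r - 1, true) = false := by
        by_contra hne
        rw [Bool.not_eq_false] at hne
        apply h2
        refine ⟨Or.inr (Or.inr (Or.inr ⟨by simp, hne⟩)), ?_, ?_, ?_, ?_, ?_⟩ <;> simp only <;>
          push_cast at hR hC' ⊢ <;> omega
      have hd := dual_v hK hc (by omega) (by push_cast at hR ⊢; omega) (by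
        push_cast at hC' ⊢
        omega)
      refine ⟨hA, hA', ?_, ?_, Or.inr ?_⟩
      · intro _; exact Or.inl rfl
      · intro _ h; exact absurd (show (2 : Fin 4) = 3 from h) (by decide)
      · exact hD'.step hd.2

theorem inv_start {a b : ℕ} (ha : Odd a) {K : ℤ} (hK : 2 * K = a + b + 2) (ω : Conf) :
    Inv a b K ω (start a) := by
  obtain ⟨k, rfl⟩ := ha
  have e1 : ((((2 * k + 1 : ℕ) : ℤ) + 1) / 2) = k + 1 := by push_cast; omega
  have e2 : ((1 - ((2 * k + 1 : ℕ) : ℤ)) / 2) = -k := by push_cast; omega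
  unfold Inv start
  rw [e1, e2]
  refine ⟨?_, ?_, ?_, ?_, Or.inr ⟨yv K ((((k : ℤ) + 1), -(k : ℤ)), 3), ?_, ?_,
    Relation.ReflTransGen.refl⟩⟩
  · simp only; omega
  · simp only; push_cast; omega
  · intro h; simp only at h; omega
  · intro _ _; simp only; omega
  · show (-(k : ℤ) - 1 + K) - ((k : ℤ) + 1 + 1 - K) = b
    push_cast at hK
    omega
  · show 1 ≤ (-(k : ℤ) - 1 + K) + ((k : ℤ) + 1 + 1 - K)
    omega

end E2

open E2 in
theorem E2_left (a b : ℕ) (ha : Odd a) (hb : Odd b) :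
    EL a b ⊆ {ω | mir (((a + b + 2) / 2 : ℕ) : ℤ) ω ∈ Cross b a} := by
  classical
  intro ω hω
  have hK : 2 * (((a + b + 2) / 2 : ℕ) : ℤ) = a + b + 2 := by
    obtain ⟨k, rfl⟩ := ha
    obtain ⟨l, rfl⟩ := hb
    omega
  set K : ℤ := (((a + b + 2) / 2 : ℕ) : ℤ) with hKdef
  obtain ⟨n0, h0, h0'⟩ := hω
  have hex : ∃ n, hitL (walk a b ω n) := ⟨n0, h0⟩
  set n := Nat.find hex with hn
  have hn1 : hitL (walk a b ω n) := Nat.find_spec hex
  have hn2 : ∀ m < n, ¬ hitL (walk a b ω m) := fun m hm => Nat.find_min hex hm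
  have hn3 : n ≤ n0 := Nat.find_min' hex h0
  have key : ∀ m ≤ n, Inv a b K ω (walk a b ω m) := by
    intro m
    induction m with
    | zero =>
      intro _
      exact inv_start ha hK ω
    | succ m ih =>
      intro hm
      have h1 := ih (by omega)
      have h2 : walk a b ω (m + 1) = step a (a + b + 1) ω (walk a b ω m) := by
        unfold walk
        rw [Function.iterate_succ_apply']
      rw [h2]
      exact inv_step ha hK h1 (hn2 m (by omega)) (h0' m (by omega))
  obtain ⟨-, -, -, -, h5⟩ := key n le_rfl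
  generalize hs : walk a b ω n = s at hn1 h5
  obtain ⟨⟨p, r⟩, d⟩ := s
  obtain ⟨h6, h7⟩ := hn1
  simp only at h6 h7
  subst h7
  rcases h5 with h | h
  · exact absurd (show (2 : Fin 4) = 1 from h.2.2) (by decide)
  · obtain ⟨x, hx1, hx2, hx3⟩ := h
    refine ⟨x, ph K (p - 1) (r - 1), hx1, hx2, ?_, hx3⟩
    unfold ph
    simp only
    push_cast
    omega

end Pool.Agent.H492E
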