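import Pool.Agent.H492E.Defs

namespace Pool.Agent.H492E

open Pool.Agent.H988R2.Perc hiding X
open Pool.Agent.H31C Finset MeasureTheory

namespace E3

/-- the index map -/
def sg (K : ℤ) : Edge → Edge := fun e =>
  match e with
  | (u, v, false) => (v + K - 1, u + 1 - K, false)
  | (u, v, true) => (v + K, u - K, true)

theorem sg_sg (K : ℤ) (e : Edge) : sg K (sg K e) = e := by
  obtain ⟨u, v, c⟩ := e
  cases c
  · show (u + 1 - K + K - 1, v + K - 1 + 1 - K, false) = (u, v, false)
    rw [show u + 1 - K + K - 1 = u by ring, show v + K - 1 + 1 - K = v by ring]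
  · show (u - K + K, v + K - K, true) = (u, v, true)
    rw [show u - K + K = u by ring, show v + K - K = v by ring]

/-- the index bijection -/
def eS (K : ℤ) : Edge ≃ Edge where
  toFun := sg K
  invFun := sg K
  left_inv := sg_sg K
  right_inv := sg_sg K

theorem mir_eq (K : ℤ) (ω : Conf) (e : Edge) : mir K ω e = !(ω (sg K e)) := by
  obtain ⟨u, v, c⟩ := e
  cases c <;> rfl

/-- coordinatewise negation -/
def neg (ω : Conf) : Conf := fun e => !(ω e)

theorem mir_comp (K : ℤ) :
    mir K = neg ∘ (MeasurableEquiv.piCongrLeft (fun _ : Edge => Bool) (eS K)) := by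
  funext ω i
  rw [mir_eq]
  obtain ⟨j, rfl⟩ := (eS K).surjective i
  rw [Function.comp_apply, neg, MeasurableEquiv.coe_piCongrLeft,
    Equiv.piCongrLeft_apply_apply]
  show (!(ω (sg K (sg K j)))) = !(ω j)
  rw [sg_sg]

theorem meas_neg : Measurable neg := by
  refine measurable_pi_lambda _ fun e => ?_
  exact (measurable_of_countable (fun b : Bool => !b)).comp (measurable_pi_apply e)

theorem coin_map : coin.map (fun b : Bool => !b) = coin := by
  unfold coin
  have hm : Measurable (fun b : Bool => !b) := measurable_of_countable _
  refine Measure.ext_of_singleton fun b => ?_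
  rw [Measure.map_apply hm (measurableSet_singleton b)]
  have : (fun b : Bool => !b) ⁻¹' {b} = {!b} := by
    ext c
    cases b <;> cases c <;> simp
  rw [this, PMF.toMeasure_apply_singleton _ _ (measurableSet_singleton _),
    PMF.toMeasure_apply_singleton _ _ (measurableSet_singleton _)]
  simp

theorem neg_map : perc.map neg = perc := by
  unfold perc
  have h := Measure.infinitePi_map_pi (μ := fun _ : Edge => coin)
    (f := fun _ : Edge => fun b : Bool => !b) (fun _ => measurable_of_countable _)
  simp only [coin_map] at h
  exact h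

theorem cong_map (K : ℤ) :
    perc.map (MeasurableEquiv.piCongrLeft (fun _ : Edge => Bool) (eS K)) = perc := by
  unfold perc
  exact Measure.infinitePi_map_piCongrLeft (fun _ : Edge => coin) (eS K)

end E3

theorem E3_meas (K : ℤ) : Measurable (mir K) := by
  rw [E3.mir_comp]
  exact E3.meas_neg.comp (MeasurableEquiv.measurable _)

theorem E3_map (K : ℤ) : perc.map (mir K) = perc := by
  rw [E3.mir_comp, ← Measure.map_map E3.meas_neg (MeasurableEquiv.measurable _), E3.cong_map,
    E3.neg_map]

end Pool.Agent.H492E
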