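import Pool.Agent.H492E.Defs

/-! `Cross` is measurable. -/

namespace Pool.Agent.H492E

open Pool.Agent.H988R2.Perc hiding X
open Pool.Agent.H31C Finset MeasureTheory

theorem E3c_open (x y : ℤ × ℤ) : MeasurableSet {ω : Conf | OpenAdj ω x y} := by
  have h : ∀ e : Edge, MeasurableSet {ω : Conf | ω e = true} := fun e => by
    have h1 : Measurable (fun ω : Conf => ω e) := measurable_pi_apply e
    exact h1 (MeasurableSet.of_discrete (s := ({true} : Set Bool)))
  exact ((MeasurableSet.const _).inter (h _)).union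
    (((MeasurableSet.const _).inter (h _)).union
      (((MeasurableSet.const _).inter (h _)).union ((MeasurableSet.const _).inter (h _))))

theorem E3c_slit (a L : ℕ) (x y : ℤ × ℤ) : MeasurableSet {ω : Conf | SlitAdj a L ω x y} :=
  (E3c_open x y).inter (MeasurableSet.const _)

/-- joined by `n` steps -/
def E3c_P (a L : ℕ) (x : ℤ × ℤ) : ℕ → (ℤ × ℤ) → Set Conf
  | 0, y => {_ω | x = y}
  | n + 1, y => ⋃ z : ℤ × ℤ, E3c_P a L x n z ∩ {ω | SlitAdj a L ω z y}

theorem E3c_P_meas (a L : ℕ) (x : ℤ × ℤ) (n : ℕ) (y : ℤ × ℤ) : MeasurableSet (E3c_P a L x n y) := by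
  induction n generalizing y with
  | zero => exact MeasurableSet.const _
  | succ n ih => exact MeasurableSet.iUnion fun z => (ih z).inter (E3c_slit a L z y)

theorem E3c_iff (a L : ℕ) (x y : ℤ × ℤ) (ω : Conf) :
    Relation.ReflTransGen (SlitAdj a L ω) x y ↔ ∃ n, ω ∈ E3c_P a L x n y := by
  constructor
  · intro h
    induction h with
    | refl => exact ⟨0, rfl⟩
    | tail _ h2 ih =>
      obtain ⟨n, hn⟩ := ih
      exact ⟨n + 1, Set.mem_iUnion.2 ⟨_, hn, h2⟩⟩
  · rintro ⟨n, hn⟩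
    induction n generalizing y with
    | zero =>
      have : x = y := hn
      rw [this]
    | succ n ih =>
      obtain ⟨z, hz, hzy⟩ := Set.mem_iUnion.1 hn
      exact (ih z hz).tail hzy

theorem E3c_refl (a L : ℕ) (x y : ℤ × ℤ) :
    MeasurableSet {ω : Conf | Relation.ReflTransGen (SlitAdj a L ω) x y} := by
  have h : {ω : Conf | Relation.ReflTransGen (SlitAdj a L ω) x y} = ⋃ n, E3c_P a L x n y := by
    ext ω
    rw [Set.mem_iUnion]
    exact E3c_iff a L x y ω
  rw [h]
  exact MeasurableSet.iUnion fun n => E3c_P_meas a L x n y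

theorem E3_cross (a b : ℕ) : MeasurableSet (Cross a b) := by
  have h : Cross a b = ⋃ x : ℤ × ℤ, ⋃ y : ℤ × ℤ, {_ω | x.1 - x.2 = a ∧ 1 ≤ x.1 + x.2 ∧
      y.1 - y.2 = ((a+b+1 : ℕ) : ℤ)} ∩ {ω | Relation.ReflTransGen (SlitAdj a (a+b+1) ω) x y} := by
    ext ω
    simp only [Cross, Set.mem_iUnion, Set.mem_inter_iff, Set.mem_ofPred_eq, and_assoc]
  rw [h]
  exact MeasurableSet.iUnion fun x => MeasurableSet.iUnion fun y =>
    (MeasurableSet.const _).inter (E3c_refl a (a+b+1) x y)

end Pool.Agent.H492E
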