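import Pool.Agent.H492E.Defs

/-!
The step of the exploration path is injective, and its values are never `(z, 3)` with `z` in the
bank.
-/

namespace Pool.Agent.H492E

open Pool.Agent.H988R2.Perc hiding X
open Pool.Agent.H31C Finset MeasureTheory

theorem step_cases (a L : ℕ) (ω : Conf) (s : (ℤ × ℤ) × Fin 4) :
    (Bank a s.1 ∧ s.2 = 0 ∧ step a L ω s = (s.1 + (1, 1), 2)) ∨
    (¬ (Bank a s.1 ∧ s.2 = 0) ∧ SlitAdj a L ω s.1 (s.1 + vec s.2) ∧
      step a L ω s = (s.1 + vec s.2, s.2 + 1)) ∨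
    (¬ (Bank a s.1 ∧ s.2 = 0) ∧ ¬ SlitAdj a L ω s.1 (s.1 + vec s.2) ∧
      step a L ω s = (s.1, s.2 + 3)) := by
  classical
  unfold step
  by_cases h : Bank a s.1 ∧ s.2 = 0
  · left
    refine ⟨h.1, h.2, ?_⟩
    rw [if_pos h]
  · by_cases h' : SlitAdj a L ω s.1 (s.1 + vec s.2)
    · right; left
      refine ⟨h, h', ?_⟩
      rw [if_neg h, if_pos h']
    · right; right
      refine ⟨h, h', ?_⟩
      rw [if_neg h, if_neg h']

theorem slitAdj_symm (a L : ℕ) (ω : Conf) (x y : ℤ × ℤ) (h : SlitAdj a L ω x y) :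
    SlitAdj a L ω y x := by
  obtain ⟨ho, h1, h2, h3, h4, h5⟩ := h
  refine ⟨?_, h3, h4, h1, h2, ?_⟩
  · rcases ho with ho | ho | ho | ho
    · exact Or.inr (Or.inl ho)
    · exact Or.inl ho
    · exact Or.inr (Or.inr (Or.inr ho))
    · exact Or.inr (Or.inr (Or.inl ho))
  · intro hh
    exact h5 ⟨hh.2.1, hh.1, hh.2.2.symm⟩

theorem f4a : ∀ d : Fin 4, d + 1 = 3 → d = 2 := by decide
theorem f4b : ∀ d : Fin 4, d + 3 = 3 → d = 0 := by decide
theorem f4c : ∀ d : Fin 4, d + 1 = 2 → d = 1 := by decide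
theorem f4d : ∀ d : Fin 4, d + 3 = 2 → d = 3 := by decide
theorem f4e : ∀ d d' : Fin 4, d + 1 = d' + 3 → d' = d + 2 := by decide

theorem E4_noStart (a L : ℕ) (ω : Conf) (s : (ℤ × ℤ) × Fin 4) (z : ℤ × ℤ) (hz : Bank a z) :
    step a L ω s ≠ (z, 3) := by
  obtain ⟨⟨u, v⟩, d⟩ := s
  obtain ⟨z1, z2⟩ := z
  unfold Bank at hz
  simp only at hz
  intro h
  rcases step_cases a L ω ((u, v), d) with ⟨-, -, e⟩ | ⟨-, hs, e⟩ | ⟨hn, -, e⟩
  · rw [e] at h
    have := congrArg Prod.snd h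
    simp at this
  · rw [e] at h
    have h2 := congrArg Prod.snd h
    have h1 := congrArg Prod.fst h
    simp only at h1 h2 hs
    have hd : d = 2 := f4a d h2
    subst hd
    simp only [vec, Prod.mk_add_mk, Prod.mk.injEq] at h1 hs
    obtain ⟨-, -, -, -, -, h5⟩ := hs
    apply h5
    simp only
    omega
  · rw [e] at h
    have h2 := congrArg Prod.snd h
    have h1 := congrArg Prod.fst h
    simp only [Prod.mk.injEq] at h1 h2 hn
    have hd : d = 0 := f4b d h2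
    apply hn
    refine ⟨?_, hd⟩
    unfold Bank
    simp only
    omega

theorem E4_inj (a L : ℕ) (ω : Conf) (s s' : (ℤ × ℤ) × Fin 4)
    (h1 : ¬ (Bank a s.1 ∧ 2 ≤ s.1.1 + s.1.2 ∧ s.2 = 3))
    (h2 : ¬ (Bank a s'.1 ∧ 2 ≤ s'.1.1 + s'.1.2 ∧ s'.2 = 3))
    (h : step a L ω s = step a L ω s') : s = s' := by
  have BO : ∀ s s' : (ℤ × ℤ) × Fin 4, Bank a s.1 → SlitAdj a L ω s'.1 (s'.1 + vec s'.2) →
      ((s.1 + (1, 1), (2 : Fin 4)) : (ℤ × ℤ) × Fin 4) = (s'.1 + vec s'.2, s'.2 + 1) → False := by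
    intro s s' hb hs e
    obtain ⟨⟨u, v⟩, d⟩ := s
    obtain ⟨⟨u', v'⟩, d'⟩ := s'
    have e2 := congrArg Prod.snd e
    have e1 := congrArg Prod.fst e
    simp only at e1 e2 hs hb
    have hd : d' = 1 := f4c d' e2.symm
    subst hd
    unfold Bank at hb
    simp only [vec, Prod.mk_add_mk, Prod.mk.injEq] at e1 hs hb
    obtain ⟨-, -, -, -, -, h5⟩ := hs
    apply h5
    simp only
    omega
  have BC : ∀ s s' : (ℤ × ℤ) × Fin 4, Bank a s.1 →
      ¬ (Bank a s'.1 ∧ 2 ≤ s'.1.1 + s'.1.2 ∧ s'.2 = 3) →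
      ((s.1 + (1, 1), (2 : Fin 4)) : (ℤ × ℤ) × Fin 4) = (s'.1, s'.2 + 3) → False := by
    intro s s' hb hn e
    obtain ⟨⟨u, v⟩, d⟩ := s
    obtain ⟨⟨u', v'⟩, d'⟩ := s'
    have e2 := congrArg Prod.snd e
    have e1 := congrArg Prod.fst e
    simp only at e1 e2 hb hn
    have hd : d' = 3 := f4d d' e2.symm
    apply hn
    unfold Bank at hb ⊢
    simp only [Prod.mk_add_mk, Prod.mk.injEq] at e1 hb ⊢
    refine ⟨?_, ?_, hd⟩ <;> omega
  have OC : ∀ s s' : (ℤ × ℤ) × Fin 4, SlitAdj a L ω s.1 (s.1 + vec s.2) →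
      ¬ SlitAdj a L ω s'.1 (s'.1 + vec s'.2) →
      ((s.1 + vec s.2, s.2 + 1) : (ℤ × ℤ) × Fin 4) = (s'.1, s'.2 + 3) → False := by
    intro s s' hs hn e
    obtain ⟨x, d⟩ := s
    obtain ⟨y, d'⟩ := s'
    have e2 := congrArg Prod.snd e
    have e1 := congrArg Prod.fst e
    simp only at e1 e2 hs hn
    have hd : d' = d + 2 := f4e d d' e2
    have hv : x = y + vec d' := by
      rw [← e1, hd]
      obtain ⟨x1, x2⟩ := x
      fin_cases d <;> simp [vec]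
    apply hn
    rw [← hv, ← e1]
    exact slitAdj_symm a L ω _ _ hs
  rcases step_cases a L ω s with ⟨b1, d1, e1⟩ | ⟨n1, o1, e1⟩ | ⟨n1, c1, e1⟩ <;>
    rcases step_cases a L ω s' with ⟨b2, d2, e2⟩ | ⟨n2, o2, e2⟩ | ⟨n2, c2, e2⟩ <;>
    rw [e1, e2] at h
  · have h3 := congrArg Prod.fst h
    exact Prod.ext (add_right_cancel h3) (d1.trans d2.symm)
  · exact (BO s s' b1 o2 h).elim
  · exact (BC s s' b1 h2 h).elim
  · exact (BO s' s b2 o1 h.symm).elim
  · have h3 := congrArg Prod.fst h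
    have h4 : s.2 = s'.2 := add_right_cancel (congrArg Prod.snd h)
    simp only at h3
    rw [h4] at h3
    exact Prod.ext (add_right_cancel h3) h4
  · exact (OC s s' o1 c2 h).elim
  · exact (BC s' s b2 h1 h.symm).elim
  · exact (OC s' s o2 c1 h.symm).elim
  · have h3 := congrArg Prod.fst h
    have h4 : s.2 = s'.2 := add_right_cancel (congrArg Prod.snd h)
    exact Prod.ext h3 h4

end Pool.Agent.H492E
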