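import Pool.Agent.H492E.Defs

/-! Task E4b: confinement of the exploration path by the three barriers. -/

set_option autoImplicit false

namespace Pool.Agent.H492E

open Pool.Agent.H988R2.Perc hiding X
open Pool.Agent.H31C Finset MeasureTheory

theorem E4b_o0 (ω : Conf) (u v : ℤ) : OpenAdj ω (u, v) (u + 1, v) ↔ ω (u, v, false) = true := by
  unfold OpenAdj
  simp only [Prod.mk.injEq]
  constructor
  · rintro (⟨_, h⟩ | ⟨⟨h, _⟩, _⟩ | ⟨⟨h, _⟩, _⟩ | ⟨⟨h, _⟩, _⟩)
    · exact h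
    · omega
    · omega
    · omega
  · intro h
    exact Or.inl ⟨trivial, h⟩

theorem E4b_o1 (ω : Conf) (u v : ℤ) : OpenAdj ω (u, v) (u, v + 1) ↔ ω (u, v, true) = true := by
  unfold OpenAdj
  simp only [Prod.mk.injEq]
  constructor
  · rintro (⟨⟨h, _⟩, _⟩ | ⟨⟨h, _⟩, _⟩ | ⟨_, h⟩ | ⟨⟨_, h⟩, _⟩)
    · omega
    · omega
    · exact h
    · omega
  · intro h
    exact Or.inr (Or.inr (Or.inl ⟨trivial, h⟩))

theorem E4b_o2 (ω : Conf) (u v : ℤ) :
    OpenAdj ω (u, v) (u - 1, v) ↔ ω (u - 1, v, false) = true := by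
  unfold OpenAdj
  simp only [Prod.mk.injEq]
  constructor
  · rintro (⟨⟨h, _⟩, _⟩ | ⟨_, h⟩ | ⟨⟨h, _⟩, _⟩ | ⟨⟨h, _⟩, _⟩)
    · omega
    · exact h
    · omega
    · omega
  · intro h
    exact Or.inr (Or.inl ⟨⟨by omega, trivial⟩, h⟩)

theorem E4b_o3 (ω : Conf) (u v : ℤ) :
    OpenAdj ω (u, v) (u, v - 1) ↔ ω (u, v - 1, true) = true := by
  unfold OpenAdj
  simp only [Prod.mk.injEq]
  constructor
  · rintro (⟨⟨h, _⟩, _⟩ | ⟨⟨h, _⟩, _⟩ | ⟨⟨_, h⟩, _⟩ | ⟨_, h⟩)
    · omega
    · omega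
    · omega
    · exact h
  · intro h
    exact Or.inr (Or.inr (Or.inr ⟨⟨trivial, by omega⟩, h⟩))

theorem E4b_n (p : Prop) (x : ℤ × ℤ) (d : Fin 4) (hd : d ≠ 1) :
    ¬ (p ∧ ((x, d) : (ℤ × ℤ) × Fin 4).2 = 1) := fun h => hd h.2

/-- height of the dual vertex -/
def E4b_sy (s : (ℤ × ℤ) × Fin 4) : ℤ :=
  match s.2 with
  | 0 => s.1.1 + s.1.2 + 1
  | 1 => s.1.1 + s.1.2
  | 2 => s.1.1 + s.1.2 - 1
  | 3 => s.1.1 + s.1.2

/-- the invariant -/
structure E4b_Inv (a b : ℕ) (h1 h2 h3 : ℤ) (s : (ℤ × ℤ) × Fin 4) : Prop where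
  c0 : 0 ≤ s.1.1 - s.1.2
  c1 : s.1.1 - s.1.2 ≤ ((a + b + 1 : ℕ) : ℤ)
  nz : ¬ (s.1.1 - s.1.2 = 0 ∧ s.2 = 1)
  lo : h1 + 1 ≤ E4b_sy s
  up : s.1.1 - s.1.2 ≤ a → E4b_sy s ≤ h2
  ri : (a : ℤ) + 1 ≤ s.1.1 - s.1.2 → s.1.1 + s.1.2 ≤ h3

theorem E4b_step (a b : ℕ) (ha : 1 ≤ a) (ω : Conf) (h1 h2 h3 : ℤ) (hh1 : h1 ≤ -1)
    (hh2 : 1 ≤ h2) (hh3 : 1 ≤ h3) (r1 : Row 0 (a + b + 1) h1 true ω) (r2 : Row 0 a h2 true ω)
    (r3 : Row (a + 1) (a + b + 1) h3 false ω) (s : (ℤ × ℤ) × Fin 4)
    (hI : E4b_Inv a b h1 h2 h3 s) (hL : ¬ hitL s) (hR : ¬ hitR a b s) :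
    E4b_Inv a b h1 h2 h3 (step a (a + b + 1) ω s) := by
  obtain ⟨⟨u, v⟩, d⟩ := s
  obtain ⟨c0, c1, nz, lo, up, ri⟩ := hI
  have e1 := r1
  unfold hitL at hL
  unfold hitR at hR
  simp only at c0 c1 nz up ri hL hR
  push_cast at c1 hR
  fin_cases d
  · -- d = 0
    simp only [E4b_sy] at lo up
    unfold step
    simp only
    split_ifs with hb ho
    · obtain ⟨⟨hb1, hb2⟩, _⟩ := hb
      simp only at hb1 hb2
      refine ⟨?_, ?_, ?_, ?_, ?_, ?_⟩
      · show 0 ≤ (u + 1) - (v + 1); omega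
      · show (u + 1) - (v + 1) ≤ ((a + b + 1 : ℕ) : ℤ); push_cast; omega
      · exact E4b_n _ _ _ (by decide)
      · show h1 + 1 ≤ (u + 1) + (v + 1) - 1; omega
      · intro _; show (u + 1) + (v + 1) - 1 ≤ h2; have := up (by omega); omega
      · intro h; have h' : (a:ℤ) + 1 ≤ (u + 1) - (v + 1) := h; omega
    · have ho' : SlitAdj a (a + b + 1) ω (u, v) (u + 1, v) := by
        have : ((u, v) : ℤ × ℤ) + vec 0 = (u + 1, v) := by simp [vec]
        rw [← this]; exact ho
      obtain ⟨g1, g2, g3, g4, g5, g6⟩ := ho'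
      rw [E4b_o0] at g1
      simp only at g2 g3 g4 g5 g6
      push_cast at g3 g5
      have hv : (((u, v) : ℤ × ℤ) + vec 0, (0 : Fin 4) + 1) = ((u + 1, v), 1) := by simp [vec]
      show E4b_Inv a b h1 h2 h3 (((u, v) : ℤ × ℤ) + vec 0, (0 : Fin 4) + 1)
      rw [hv]
      refine ⟨?_, ?_, ?_, ?_, ?_, ?_⟩
      · exact g4
      · show u + 1 - v ≤ ((a + b + 1 : ℕ) : ℤ); push_cast; omega
      · rintro ⟨h, _⟩; have h' : u + 1 - v = 0 := h; omega
      · show h1 + 1 ≤ u + 1 + v; omega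
      · intro h
        have h' : u + 1 - v ≤ a := h
        show u + 1 + v ≤ h2
        have := up (by omega)
        omega
      · intro h
        have h' : (a : ℤ) + 1 ≤ u + 1 - v := h
        show u + 1 + v ≤ h3
        by_cases hc : (a : ℤ) + 1 ≤ u - v
        · have h5 := ri hc
          by_contra hcon
          have h6 : u + v = h3 := by omega
          have h7 := (r3 u v).1 hc (by omega) h6
          rw [g1] at h7
          exact Bool.noConfusion h7
        · by_contra hcon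
          apply g6
          refine ⟨by omega, by omega, Or.inl ⟨by omega, by omega⟩⟩
    · have hv : (((u, v) : ℤ × ℤ), (0 : Fin 4) + 3) = ((u, v), 3) := by simp
      show E4b_Inv a b h1 h2 h3 (((u, v) : ℤ × ℤ), (0 : Fin 4) + 3)
      rw [hv]
      refine ⟨c0, ?_, ?_, ?_, ?_, ri⟩
      · show u - v ≤ ((a + b + 1 : ℕ) : ℤ); push_cast; omega
      · exact E4b_n _ _ _ (by decide)
      · show h1 + 1 ≤ u + v
        by_contra hcon
        have h6 : u + v = h1 := by omega
        have h7 := (r1 u v).1 c0 (by omega) h6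
        apply ho
        have : ((u, v) : ℤ × ℤ) + vec 0 = (u + 1, v) := by simp [vec]
        show SlitAdj a (a + b + 1) ω (u, v) (((u, v) : ℤ × ℤ) + vec 0)
        rw [this]
        refine ⟨(E4b_o0 ω u v).mpr h7, c0, ?_, ?_, ?_, ?_⟩
        · show u - v ≤ ((a + b + 1 : ℕ) : ℤ); push_cast; omega
        · show 0 ≤ u + 1 - v; omega
        · show u + 1 - v ≤ ((a + b + 1 : ℕ) : ℤ); push_cast; omega
        · rintro ⟨h8, _⟩
          have h8' : 1 ≤ u + v := h8
          omega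
      · intro h
        have h' : u - v ≤ a := h
        show u + v ≤ h2
        have := up h'
        omega
  · -- d = 1
    simp only [E4b_sy] at lo up
    unfold step
    simp only
    split_ifs with hb ho
    · exact absurd hb.2 (by decide)
    · have ho' : SlitAdj a (a + b + 1) ω (u, v) (u, v + 1) := by
        have : ((u, v) : ℤ × ℤ) + vec 1 = (u, v + 1) := by simp [vec]
        rw [← this]; exact ho
      obtain ⟨g1, g2, g3, g4, g5, g6⟩ := ho'
      rw [E4b_o1] at g1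
      simp only at g2 g3 g4 g5 g6
      push_cast at g3 g5
      have hv : (((u, v) : ℤ × ℤ) + vec 1, (1 : Fin 4) + 1) = ((u, v + 1), 2) := by simp [vec]
      show E4b_Inv a b h1 h2 h3 (((u, v) : ℤ × ℤ) + vec 1, (1 : Fin 4) + 1)
      rw [hv]
      refine ⟨?_, ?_, ?_, ?_, ?_, ?_⟩
      · exact g4
      · show u - (v + 1) ≤ ((a + b + 1 : ℕ) : ℤ); push_cast; omega
      · exact E4b_n _ _ _ (by decide)
      · show h1 + 1 ≤ u + (v + 1) - 1; omega
      · intro h
        have h' : u - (v + 1) ≤ a := h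
        show u + (v + 1) - 1 ≤ h2
        by_cases hc : u - v ≤ a
        · have := up hc
          omega
        · by_contra hcon
          apply g6
          refine ⟨by omega, by omega, Or.inr ⟨by omega, by omega⟩⟩
      · intro h
        have h' : (a : ℤ) + 1 ≤ u - (v + 1) := h
        show u + (v + 1) ≤ h3
        have h5 := ri (by omega)
        by_contra hcon
        have h6 : u + v = h3 := by omega
        have h7 := (r3 u v).2 (by omega) (by omega) h6
        rw [g1] at h7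
        exact Bool.noConfusion h7
    · have hv : (((u, v) : ℤ × ℤ), (1 : Fin 4) + 3) = ((u, v), 0) := by rfl
      show E4b_Inv a b h1 h2 h3 (((u, v) : ℤ × ℤ), (1 : Fin 4) + 3)
      rw [hv]
      refine ⟨c0, ?_, ?_, ?_, ?_, ri⟩
      · show u - v ≤ ((a + b + 1 : ℕ) : ℤ); push_cast; omega
      · exact E4b_n _ _ _ (by decide)
      · show h1 + 1 ≤ u + v + 1
        omega
      · intro h
        have h' : u - v ≤ a := h
        show u + v + 1 ≤ h2
        have h5 := up h'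
        by_contra hcon
        have h6 : u + v = h2 := by omega
        have h9 : u - v ≠ 0 := fun h0 => nz ⟨h0, rfl⟩
        have h7 := (r2 u v).2 (by omega) h' h6
        apply ho
        have : ((u, v) : ℤ × ℤ) + vec 1 = (u, v + 1) := by simp [vec]
        show SlitAdj a (a + b + 1) ω (u, v) (((u, v) : ℤ × ℤ) + vec 1)
        rw [this]
        refine ⟨(E4b_o1 ω u v).mpr h7, c0, ?_, ?_, ?_, ?_⟩
        · show u - v ≤ ((a + b + 1 : ℕ) : ℤ); push_cast; omega
        · show 0 ≤ u - (v + 1); omega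
        · show u - (v + 1) ≤ ((a + b + 1 : ℕ) : ℤ); push_cast; omega
        · rintro ⟨_, _, h8⟩
          simp only at h8
          omega
  · -- d = 2
    simp only [E4b_sy] at lo up
    unfold step
    simp only
    split_ifs with hb ho
    · exact absurd hb.2 (by decide)
    · have ho' : SlitAdj a (a + b + 1) ω (u, v) (u - 1, v) := by
        have : ((u, v) : ℤ × ℤ) + vec 2 = (u - 1, v) := by
          simp [vec, sub_eq_add_neg]
        rw [← this]; exact ho
      obtain ⟨g1, g2, g3, g4, g5, g6⟩ := ho'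
      simp only at g2 g3 g4 g5 g6
      push_cast at g3 g5
      have hv : (((u, v) : ℤ × ℤ) + vec 2, (2 : Fin 4) + 1) = ((u - 1, v), 3) := by
        simp [vec, sub_eq_add_neg]
      show E4b_Inv a b h1 h2 h3 (((u, v) : ℤ × ℤ) + vec 2, (2 : Fin 4) + 1)
      rw [hv]
      refine ⟨?_, ?_, ?_, ?_, ?_, ?_⟩
      · exact g4
      · show u - 1 - v ≤ ((a + b + 1 : ℕ) : ℤ); push_cast; omega
      · exact E4b_n _ _ _ (by decide)
      · show h1 + 1 ≤ u - 1 + v; omega
      · intro h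
        have h' : u - 1 - v ≤ a := h
        show u - 1 + v ≤ h2
        by_cases hc : u - v ≤ a
        · have := up hc
          omega
        · by_contra hcon
          apply g6
          refine ⟨by omega, by omega, Or.inr ⟨by omega, by omega⟩⟩
      · intro h
        have h' : (a : ℤ) + 1 ≤ u - 1 - v := h
        show u - 1 + v ≤ h3
        have h5 := ri (by omega)
        omega
    · have hv : (((u, v) : ℤ × ℤ), (2 : Fin 4) + 3) = ((u, v), 1) := by rfl
      show E4b_Inv a b h1 h2 h3 (((u, v) : ℤ × ℤ), (2 : Fin 4) + 3)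
      rw [hv]
      have h9 : u - v ≠ 0 := fun h0 => hL ⟨h0, rfl⟩
      refine ⟨c0, ?_, ?_, ?_, ?_, ri⟩
      · show u - v ≤ ((a + b + 1 : ℕ) : ℤ); push_cast; omega
      · rintro ⟨h, _⟩; exact h9 h
      · show h1 + 1 ≤ u + v
        omega
      · intro h
        have h' : u - v ≤ a := h
        show u + v ≤ h2
        have h5 := up h'
        by_contra hcon
        have h6 : (u - 1) + v = h2 := by omega
        have h7 := (r2 (u - 1) v).1 (by omega) (by omega) h6
        apply ho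
        have : ((u, v) : ℤ × ℤ) + vec 2 = (u - 1, v) := by
          simp [vec, sub_eq_add_neg]
        show SlitAdj a (a + b + 1) ω (u, v) (((u, v) : ℤ × ℤ) + vec 2)
        rw [this]
        refine ⟨(E4b_o2 ω u v).mpr h7, c0, ?_, ?_, ?_, ?_⟩
        · show u - v ≤ ((a + b + 1 : ℕ) : ℤ); push_cast; omega
        · show 0 ≤ u - 1 - v; omega
        · show u - 1 - v ≤ ((a + b + 1 : ℕ) : ℤ); push_cast; omega
        · rintro ⟨_, _, h8⟩
          simp only at h8
          omega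
  · -- d = 3
    simp only [E4b_sy] at lo up
    unfold step
    simp only
    split_ifs with hb ho
    · exact absurd hb.2 (by decide)
    · have ho' : SlitAdj a (a + b + 1) ω (u, v) (u, v - 1) := by
        have : ((u, v) : ℤ × ℤ) + vec 3 = (u, v - 1) := by
          simp [vec, sub_eq_add_neg]
        rw [← this]; exact ho
      obtain ⟨g1, g2, g3, g4, g5, g6⟩ := ho'
      simp only at g2 g3 g4 g5 g6
      push_cast at g3 g5
      have hv : (((u, v) : ℤ × ℤ) + vec 3, (3 : Fin 4) + 1) = ((u, v - 1), 0) := by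
        have h9 : ((3 : Fin 4) + 1) = 0 := by decide
        rw [h9]
        simp [vec, sub_eq_add_neg]
      show E4b_Inv a b h1 h2 h3 (((u, v) : ℤ × ℤ) + vec 3, (3 : Fin 4) + 1)
      rw [hv]
      refine ⟨?_, ?_, ?_, ?_, ?_, ?_⟩
      · exact g4
      · show u - (v - 1) ≤ ((a + b + 1 : ℕ) : ℤ); push_cast; omega
      · exact E4b_n _ _ _ (by decide)
      · show h1 + 1 ≤ u + (v - 1) + 1; omega
      · intro h
        have h' : u - (v - 1) ≤ a := h
        show u + (v - 1) + 1 ≤ h2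
        have := up (by omega)
        omega
      · intro h
        have h' : (a : ℤ) + 1 ≤ u - (v - 1) := h
        show u + (v - 1) ≤ h3
        by_cases hc : (a : ℤ) + 1 ≤ u - v
        · have h5 := ri hc
          omega
        · by_contra hcon
          apply g6
          refine ⟨by omega, by omega, Or.inl ⟨by omega, by omega⟩⟩
    · have hv : (((u, v) : ℤ × ℤ), (3 : Fin 4) + 3) = ((u, v), 2) := by rfl
      show E4b_Inv a b h1 h2 h3 (((u, v) : ℤ × ℤ), (3 : Fin 4) + 3)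
      rw [hv]
      refine ⟨c0, ?_, ?_, ?_, ?_, ri⟩
      · show u - v ≤ ((a + b + 1 : ℕ) : ℤ); push_cast; omega
      · exact E4b_n _ _ _ (by decide)
      · show h1 + 1 ≤ u + v - 1
        by_contra hcon
        have h6 : u + (v - 1) = h1 := by omega
        have h7 := (r1 u (v - 1)).2 (by omega) (by omega) h6
        apply ho
        have : ((u, v) : ℤ × ℤ) + vec 3 = (u, v - 1) := by
          simp [vec, sub_eq_add_neg]
        show SlitAdj a (a + b + 1) ω (u, v) (((u, v) : ℤ × ℤ) + vec 3)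
        rw [this]
        refine ⟨(E4b_o3 ω u v).mpr h7, c0, ?_, ?_, ?_, ?_⟩
        · show u - v ≤ ((a + b + 1 : ℕ) : ℤ); push_cast; omega
        · show 0 ≤ u - (v - 1); omega
        · show u - (v - 1) ≤ ((a + b + 1 : ℕ) : ℤ); push_cast; omega
        · rintro ⟨_, h8, _⟩
          have h8' : 1 ≤ u + (v - 1) := h8
          omega
      · intro h
        have h' : u - v ≤ a := h
        show u + v - 1 ≤ h2
        have := up h'
        omega

theorem E4b_start (a b : ℕ) (ha : Odd a) (h1 h2 h3 : ℤ) (hh1 : h1 ≤ -1)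
    (hh2 : 1 ≤ h2) : E4b_Inv a b h1 h2 h3 (start a) := by
  obtain ⟨k, rfl⟩ := ha
  have e : start (2 * k + 1) = (((k : ℤ) + 1, -(k : ℤ)), 3) := by
    unfold start
    have e1 : (((2 * k + 1 : ℕ) : ℤ) + 1) / 2 = (k : ℤ) + 1 := by push_cast; omega
    have e2 : (1 - ((2 * k + 1 : ℕ) : ℤ)) / 2 = -(k : ℤ) := by push_cast; omega
    rw [e1, e2]
  rw [e]
  refine ⟨?_, ?_, ?_, ?_, ?_, ?_⟩
  · show 0 ≤ (k : ℤ) + 1 - -(k : ℤ); omega
  · show (k : ℤ) + 1 - -(k : ℤ) ≤ ((2 * k + 1 + b + 1 : ℕ) : ℤ); push_cast; omega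
  · exact E4b_n _ _ _ (by decide)
  · show h1 + 1 ≤ (k : ℤ) + 1 + -(k : ℤ); omega
  · intro _; show (k : ℤ) + 1 + -(k : ℤ) ≤ h2; omega
  · intro h
    have h' : ((2 * k + 1 : ℕ) : ℤ) + 1 ≤ (k : ℤ) + 1 - -(k : ℤ) := h
    push_cast at h'
    omega

theorem E4_conf (a b : ℕ) (ha : Odd a) (hb : Odd b) (ω : Conf) (h : Barr a b ω) :
    ∃ F : Finset ((ℤ × ℤ) × Fin 4), ∀ n, (∀ m < n, ¬ hitL (walk a b ω m)) →
      (∀ m < n, ¬ hitR a b (walk a b ω m)) → walk a b ω n ∈ F := by
  obtain ⟨⟨h1, hh1, r1⟩, ⟨h2, hh2, r2⟩, ⟨h3, hh3, r3⟩⟩ := h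
  have hinv : ∀ n, (∀ m < n, ¬ hitL (walk a b ω m)) →
      (∀ m < n, ¬ hitR a b (walk a b ω m)) → E4b_Inv a b h1 h2 h3 (walk a b ω n) := by
    intro n
    induction n with
    | zero =>
      intro _ _
      exact E4b_start a b ha h1 h2 h3 hh1 hh2
    | succ n ih =>
      intro hl hr
      have h5 := ih (fun m hm => hl m (by omega)) (fun m hm => hr m (by omega))
      have h6 : walk a b ω (n + 1) = step a (a + b + 1) ω (walk a b ω n) := by
        unfold walk
        rw [Function.iterate_succ_apply']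
      rw [h6]
      exact E4b_step a b ha.pos ω h1 h2 h3 hh1 hh2 hh3 r1 r2 r3 _ h5 (hl n (by omega))
        (hr n (by omega))
  obtain ⟨N, hN⟩ : ∃ N : ℤ, N = a + b + 1 + (-h1) + h2 + 1 + h3 := ⟨_, rfl⟩
  refine ⟨(Finset.Icc (-N) N ×ˢ Finset.Icc (-N) N) ×ˢ Finset.univ, ?_⟩
  intro n hl hr
  have hI := hinv n hl hr
  generalize walk a b ω n = s at hI ⊢
  obtain ⟨⟨u, v⟩, d⟩ := s
  obtain ⟨c0, c1, _, lo, up, ri⟩ := hI
  simp only at c0 c1 up ri
  push_cast at c1
  have hlo : h1 ≤ u + v := by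
    fin_cases d <;> simp only [E4b_sy] at lo <;> omega
  have hup : u + v ≤ h2 + 1 + h3 := by
    by_cases hc : u - v ≤ a
    · have h5 := up hc
      fin_cases d <;> simp only [E4b_sy] at h5 <;> omega
    · have h5 := ri (by omega)
      omega
  simp only [Finset.mem_product, Finset.mem_Icc, Finset.mem_univ, and_true]
  refine ⟨⟨?_, ?_⟩, ?_, ?_⟩ <;> omega

end Pool.Agent.H492E
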