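import Pool.Agent.H492E.E4a

/-!
The exploration path stops (from the confinement).
-/

namespace Pool.Agent.H492E

open Pool.Agent.H988R2.Perc hiding X
open Pool.Agent.H31C Finset MeasureTheory

theorem walk_succ (a b : ℕ) (ω : Conf) (n : ℕ) :
    walk a b ω (n + 1) = step a (a + b + 1) ω (walk a b ω n) := by
  unfold walk
  rw [Function.iterate_succ_apply']

theorem start_bank (a : ℕ) (ha : Odd a) : Bank a (start a).1 ∧
    (start a).1.1 + (start a).1.2 = 1 := by
  obtain ⟨k, rfl⟩ := ha
  unfold Bank start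
  simp only
  push_cast
  omega

theorem E4_good (a b : ℕ) (ha : Odd a) (ω : Conf) (n : ℕ) :
    ¬ (Bank a (walk a b ω n).1 ∧ 2 ≤ (walk a b ω n).1.1 + (walk a b ω n).1.2 ∧
      (walk a b ω n).2 = 3) := by
  rintro ⟨h1, h2, h3⟩
  cases n with
  | zero =>
    have h := (start_bank a ha).2
    have e : walk a b ω 0 = start a := rfl
    rw [e, h] at h2
    omega
  | succ n =>
    have h := E4_noStart a (a + b + 1) ω (walk a b ω n) (walk a b ω (n + 1)).1 h1
    rw [← walk_succ] at h
    exact h (Prod.ext rfl h3)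

theorem walk_inj (a b : ℕ) (ha : Odd a) (ω : Conf) :
    ∀ i j : ℕ, i < j → walk a b ω i ≠ walk a b ω j := by
  intro i
  induction i with
  | zero =>
    intro j hj h
    obtain ⟨k, rfl⟩ : ∃ k, j = k + 1 := ⟨j - 1, by omega⟩
    rw [walk_succ] at h
    have e : walk a b ω 0 = ((start a).1, 3) := rfl
    rw [e] at h
    exact E4_noStart a (a + b + 1) ω (walk a b ω k) (start a).1 (start_bank a ha).1 h.symm
  | succ i ih =>
    intro j hj h
    obtain ⟨k, rfl⟩ : ∃ k, j = k + 1 := ⟨j - 1, by omega⟩
    rw [walk_succ, walk_succ] at h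
    exact ih k (by omega) (E4_inj a (a + b + 1) ω _ _ (E4_good a b ha ω i) (E4_good a b ha ω k) h)

/-- the path stops, if it is confined -/
theorem E4_stop_of (a b : ℕ) (ha : Odd a) (ω : Conf)
    (h : ∃ F : Finset ((ℤ × ℤ) × Fin 4), ∀ n, (∀ m < n, ¬ hitL (walk a b ω m)) →
      (∀ m < n, ¬ hitR a b (walk a b ω m)) → walk a b ω n ∈ F) :
    ω ∈ ER a b ∪ EL a b := by
  classical
  obtain ⟨F, hF⟩ := h
  by_cases hs : ∃ n, hitR a b (walk a b ω n) ∨ hitL (walk a b ω n)
  · have h1 := Nat.find_spec hs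
    have h2 : ∀ m < Nat.find hs, ¬ (hitR a b (walk a b ω m) ∨ hitL (walk a b ω m)) :=
      fun m hm => Nat.find_min hs hm
    rcases h1 with h1 | h1
    · left
      exact ⟨Nat.find hs, h1, fun m hm hh => h2 m hm (Or.inr hh)⟩
    · right
      exact ⟨Nat.find hs, h1, fun m hm hh => h2 m hm (Or.inl hh)⟩
  · exfalso
    push Not at hs
    have hall : ∀ n, walk a b ω n ∈ F := fun n =>
      hF n (fun m _ => (hs m).2) (fun m _ => (hs m).1)
    have hinj : Function.Injective (fun n => (⟨walk a b ω n, hall n⟩ : F)) := by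
      intro i j hij
      have hij' : walk a b ω i = walk a b ω j := congrArg Subtype.val hij
      rcases lt_trichotomy i j with hlt | heq | hgt
      · exact (walk_inj a b ha ω i j hlt hij').elim
      · exact heq
      · exact (walk_inj a b ha ω j i hgt hij'.symm).elim
    exact not_injective_infinite_finite _ hinj

end Pool.Agent.H492E
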