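import Pool.Agent.H492E.Defs

/-!
Task E5: the three barriers exist almost surely (second Borel–Cantelli lemma for disjoint rows).
-/

namespace Pool.Agent.H492E

open Pool.Agent.H988R2.Perc hiding X
open Pool.Agent.H31C Finset MeasureTheory ProbabilityTheory Filter

/-- a finite set of edges containing those of the row at height `h` -/
noncomputable def e5E (c c' h : ℤ) : Finset Edge :=
  (Finset.Icc c c' ×ˢ (Finset.univ : Finset Bool)).image
    (fun p => ((h + p.1) / 2, (h - p.1) / 2, p.2))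

theorem e5E_sum (c c' h : ℤ) (e : Edge) (he : e ∈ e5E c c' h) :
    e.1 + e.2.1 = h ∨ e.1 + e.2.1 = h - 1 := by
  unfold e5E at he
  rw [Finset.mem_image] at he
  obtain ⟨p, _, rfl⟩ := he
  simp only
  omega

theorem e5E_card (c c' h : ℤ) : (e5E c c' h).card ≤ (Finset.Icc c c').card * 2 := by
  unfold e5E
  refine Finset.card_image_le.trans ?_
  rw [Finset.card_product]
  simp

theorem e5E_row (c c' h : ℤ) (t : Bool) (ω : Conf) (hω : ∀ e ∈ e5E c c' h, ω e = t) :
    Row c c' h t ω := by
  intro u v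
  refine ⟨fun h1 h2 h3 => ?_, fun h1 h2 h3 => ?_⟩
  · apply hω
    unfold e5E
    rw [Finset.mem_image]
    refine ⟨(u - v, false), ?_, ?_⟩
    · simp only [Finset.mem_product, Finset.mem_Icc, Finset.mem_univ, and_true]
      omega
    · simp only [Prod.mk.injEq, and_true]
      omega
  · apply hω
    unfold e5E
    rw [Finset.mem_image]
    refine ⟨(u - v, true), ?_, ?_⟩
    · simp only [Finset.mem_product, Finset.mem_Icc, Finset.mem_univ, and_true]
      omega
    · simp only [Prod.mk.injEq, and_true]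
      omega

theorem e5_coin (t : Bool) : coin {t} = 1 / 2 := by
  unfold coin
  rw [PMF.toMeasure_apply_singleton _ _ (MeasurableSet.singleton t)]
  simp [PMF.uniformOfFintype_apply]

/-- the cylinder event -/
def e5A (S : Finset Edge) (t : Bool) : Set Conf := Set.pi (S : Set Edge) (fun _ => {t})

theorem e5A_meas (S : Finset Edge) (t : Bool) : MeasurableSet (e5A S t) := by
  unfold e5A
  exact MeasurableSet.pi S.countable_toSet (fun _ _ => MeasurableSet.singleton t)

theorem e5A_perc (S : Finset Edge) (t : Bool) : perc (e5A S t) = (1 / 2 : ENNReal) ^ S.card := by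
  unfold e5A perc
  rw [Measure.infinitePi_pi (μ := fun _ : Edge => coin) (s := S) (t := fun _ => {t}) (fun _ _ => MeasurableSet.singleton t)]
  rw [Finset.prod_congr rfl (fun e _ => e5_coin t), Finset.prod_const]

theorem e5_lim (E : ℕ → Finset Edge) (M : ℕ) (hM : ∀ n, (E n).card ≤ M)
    (hd : ∀ m n, m ≠ n → Disjoint (E m) (E n)) (t : Bool) :
    ∀ᵐ ω ∂perc, ∃ n, ∀ e ∈ E n, ω e = t := by
  classical
  have hind : iIndepSet (fun n => e5A (E n) t) perc := by
    rw [iIndepSet_iff_meas_biInter (fun n => e5A_meas (E n) t)]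
    intro s
    have h1 : (⋂ i ∈ s, e5A (E i) t) = e5A (s.biUnion E) t := by
      ext ω
      simp only [e5A, Set.mem_iInter, Set.mem_pi, Finset.mem_coe, Finset.mem_biUnion,
        Set.mem_singleton_iff]
      constructor
      · rintro h e ⟨i, hi, he⟩
        exact h i hi e he
      · intro h i hi e he
        exact h e ⟨i, hi, he⟩
    rw [h1, e5A_perc, Finset.card_biUnion (fun i _ j _ hij => hd i j hij)]
    rw [Finset.prod_congr rfl (fun i _ => e5A_perc (E i) t), Finset.prod_pow_eq_pow_sum]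
  have hsum : (∑' n, perc (e5A (E n) t)) = ⊤ := by
    have h1 : ∀ n, (1 / 2 : ENNReal) ^ M ≤ perc (e5A (E n) t) := by
      intro n
      rw [e5A_perc]
      exact pow_le_pow_of_le_one (by positivity) (by norm_num) (hM n)
    have h2 : (∑' _n : ℕ, (1 / 2 : ENNReal) ^ M) = ⊤ := by
      apply ENNReal.tsum_const_eq_top_of_ne_zero
      exact pow_ne_zero _ (by norm_num)
    rw [eq_top_iff, ← h2]
    exact ENNReal.tsum_le_tsum h1
  have h := measure_limsup_eq_one (fun n => e5A_meas (E n) t) hind hsum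
  have hmeas : MeasurableSet (limsup (fun n => e5A (E n) t) atTop) :=
    MeasurableSet.measurableSet_limsup (fun n => e5A_meas (E n) t)
  have h3 : ∀ᵐ ω ∂perc, ω ∈ limsup (fun n => e5A (E n) t) atTop :=
    (mem_ae_iff_prob_eq_one hmeas).2 h
  filter_upwards [h3] with ω hω
  rw [mem_limsup_iff_frequently_mem] at hω
  obtain ⟨n, hn⟩ := hω.exists
  exact ⟨n, fun e he => hn e he⟩

theorem e5_rows (c c' : ℤ) (t : Bool) (f : ℕ → ℤ) (hf : ∀ m n, m ≠ n → f m ≠ f n)
    (hf2 : ∀ m n, f m ≠ f n - 1) :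
    ∀ᵐ ω ∂perc, ∃ n, Row c c' (f n) t ω := by
  have h := e5_lim (fun n => e5E c c' (f n)) ((Finset.Icc c c').card * 2)
    (fun n => e5E_card c c' (f n)) ?_ t
  · filter_upwards [h] with ω hω
    obtain ⟨n, hn⟩ := hω
    exact ⟨n, e5E_row c c' (f n) t ω hn⟩
  · intro m n hmn
    rw [Finset.disjoint_left]
    intro e h1 h2
    have a1 := e5E_sum _ _ _ _ h1
    have a2 := e5E_sum _ _ _ _ h2
    have b1 := hf m n hmn
    have b2 := hf2 m n
    have b3 := hf2 n m
    omega

/-- task E5 -/
theorem E5_barr (a b : ℕ) : ∀ᵐ ω ∂perc, Barr a b ω := by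
  have h1 := e5_rows 0 (a + b + 1) true (fun n => -(2 * (n : ℤ) + 1))
    (fun m n h => by omega) (fun m n => by omega)
  have h2 := e5_rows 0 a true (fun n => 2 * (n : ℤ) + 1)
    (fun m n h => by omega) (fun m n => by omega)
  have h3 := e5_rows (a + 1) (a + b + 1) false (fun n => 2 * (n : ℤ) + 1)
    (fun m n h => by omega) (fun m n => by omega)
  filter_upwards [h1, h2, h3] with ω ⟨n1, r1⟩ ⟨n2, r2⟩ ⟨n3, r3⟩
  exact ⟨⟨_, by omega, r1⟩, ⟨_, by omega, r2⟩, ⟨_, by omega, r3⟩⟩

end Pool.Agent.H492E
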