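import Pool.Agent.H492E.Defs

/-!
Task E6: the beta-binomial weights add up to 1.
-/

namespace Pool.Agent.H492E

open Pool.Agent.H988R2.Perc hiding X
open Pool.Agent.H31C Finset MeasureTheory

theorem E6_ris_succ (s : ℝ) (k : ℕ) : ris s (k+1) = ris s k * (s + k) := by
  unfold ris
  rw [Finset.prod_range_succ]

theorem E6_vand (s t : ℝ) (L : ℕ) :
    ∑ k ∈ range (L+1), (L.choose k : ℝ) * (ris s k * ris t (L-k)) = ris (s+t) L := by
  induction L with
  | zero => simp [ris]
  | succ L ih =>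
    have h := Finset.sum_choose_succ_mul (R := ℝ) (fun i j => ris s i * ris t j) L
    rw [h, E6_ris_succ, ← ih, Finset.sum_mul, ← Finset.sum_add_distrib]
    refine Finset.sum_congr rfl fun k hk => ?_
    have hk' : k ≤ L := Nat.lt_succ_iff.1 (Finset.mem_range.1 hk)
    have h1 : L + 1 - k = (L - k) + 1 := by omega
    rw [h1, E6_ris_succ t, E6_ris_succ s]
    have h2 : ((L - k : ℕ) : ℝ) = (L : ℝ) - k := by
      rw [Nat.cast_sub hk']
    rw [h2]
    ring

theorem E6_ris_pos {s : ℝ} (hs : 0 < s) (k : ℕ) : 0 < ris s k := by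
  unfold ris
  apply Finset.prod_pos
  intro i _
  positivity

theorem E6_total (L : ℕ) : ∑ k ∈ range (L+1), bw L k = 1 := by
  unfold bw
  have h := E6_vand (1/3) (1/3) L
  have h2 : (1/3 : ℝ) + 1/3 = 2/3 := by norm_num
  rw [h2] at h
  have hp := E6_ris_pos (s := 2/3) (by norm_num) L
  rw [← Finset.sum_div, div_eq_one_iff_eq hp.ne', ← h]
  refine Finset.sum_congr rfl fun k _ => ?_
  ring

theorem E6_symm (L k : ℕ) (hk : k ≤ L) : bw L (L-k) = bw L k := by
  unfold bw
  rw [Nat.choose_symm hk]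
  have h : L - (L - k) = k := by omega
  rw [h]
  ring

theorem E6_sum (a b : ℕ) :
    ∑ k ∈ range (a+1), bw (a+b+1) k + ∑ k ∈ range (b+1), bw (b+a+1) k = 1 := by
  have h := E6_total (a+b+1)
  have h1 : a + b + 1 + 1 = (a+1) + (b+1) := by ring
  rw [h1, Finset.sum_range_add] at h
  rw [← h]
  congr 1
  have h2 : b + a + 1 = a + b + 1 := by ring
  rw [h2, ← Finset.sum_range_reflect]
  refine Finset.sum_congr rfl fun k hk => ?_
  have hk' : k < b + 1 := Finset.mem_range.1 hk
  rw [← E6_symm (a+b+1) (a+1+k) (by omega)]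
  congr 1
  omega

end Pool.Agent.H492E
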