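import Pool.Agent.H492E.Defs
import Pool.Agent.H31C.Stubs

/-! Task E7: assembly of the exact hitting probabilities of the exploration path. -/

namespace Pool.Agent.H492E

open Pool.Agent.H988R2.Perc hiding X
open Pool.Agent.H31C Finset MeasureTheory Filter Topology

theorem E7_of
    (E1_right : ∀ (a b : ℕ) (_ha : Odd a) (_hb : Odd b), ER a b ⊆ Cross a b)
    (E2_left : ∀ (a b : ℕ) (_ha : Odd a) (_hb : Odd b),
      EL a b ⊆ {ω | mir (((a + b + 2) / 2 : ℕ) : ℤ) ω ∈ Cross b a})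
    (E3_map : ∀ K : ℤ, perc.map (mir K) = perc)
    (E3_meas : ∀ K : ℤ, Measurable (mir K))
    (E3_cross : ∀ a b : ℕ, MeasurableSet (Cross a b))
    (E4_stop : ∀ (a b : ℕ) (_ha : Odd a) (_hb : Odd b) (ω : Conf) (_h : Barr a b ω),
      ω ∈ ER a b ∪ EL a b)
    (E5_barr : ∀ a b : ℕ, ∀ᵐ ω ∂perc, Barr a b ω)
    (E6_sum : ∀ a b : ℕ,
      ∑ k ∈ range (a+1), bw (a+b+1) k + ∑ k ∈ range (b+1), bw (b+a+1) k = 1)
    (hX : S_Exact) (a b : ℕ) (ha : Odd a) (hb : Odd b) :
    perc (ER a b) = ENNReal.ofReal (∑ k ∈ range (a+1), bw (a+b+1) k) ∧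
    perc (EL a b) = ENNReal.ofReal (∑ k ∈ range (b+1), bw (b+a+1) k) := by
  have hx1 := hX a b ha hb
  have hx2 := hX b a hb ha
  have n1 : (0:ℝ) ≤ ∑ k ∈ range (a+1), bw (a+b+1) k := hx1 ▸ measureReal_nonneg
  have n2 : (0:ℝ) ≤ ∑ k ∈ range (b+1), bw (b+a+1) k := hx2 ▸ measureReal_nonneg
  have c1 : perc (Cross a b) = ENNReal.ofReal (∑ k ∈ range (a+1), bw (a+b+1) k) := by
    rw [← hx1, measureReal_def, ENNReal.ofReal_toReal (measure_ne_top _ _)]
  have c2 : perc (Cross b a) = ENNReal.ofReal (∑ k ∈ range (b+1), bw (b+a+1) k) := by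
    rw [← hx2, measureReal_def, ENNReal.ofReal_toReal (measure_ne_top _ _)]
  have u1 : perc (ER a b) ≤ ENNReal.ofReal (∑ k ∈ range (a+1), bw (a+b+1) k) := by
    rw [← c1]; exact measure_mono (E1_right a b ha hb)
  have u2 : perc (EL a b) ≤ ENNReal.ofReal (∑ k ∈ range (b+1), bw (b+a+1) k) := by
    rw [← c2]
    refine (measure_mono (E2_left a b ha hb)).trans ?_
    have h := Measure.map_apply (μ := perc) (E3_meas (((a + b + 2) / 2 : ℕ) : ℤ)) (E3_cross b a)
    rw [E3_map] at h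
    rw [h]; rfl
  have full : (1 : ENNReal) ≤ perc (ER a b) + perc (EL a b) := by
    have h1 : ∀ᵐ ω ∂perc, ω ∈ ER a b ∪ EL a b := by
      filter_upwards [E5_barr a b] with ω hω using E4_stop a b ha hb ω hω
    have h2 : perc (ER a b ∪ EL a b) = 1 := by
      have h3 : (ER a b ∪ EL a b : Set Conf) =ᵐ[perc] Set.univ := eventuallyEq_univ.2 h1
      rw [measure_congr h3]; exact measure_univ
    rw [← h2]; exact measure_union_le _ _
  have tot : ENNReal.ofReal (∑ k ∈ range (a+1), bw (a+b+1) k) +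
      ENNReal.ofReal (∑ k ∈ range (b+1), bw (b+a+1) k) = 1 := by
    rw [← ENNReal.ofReal_add n1 n2, E6_sum, ENNReal.ofReal_one]
  have f1 : perc (ER a b) ≠ ⊤ := measure_ne_top _ _
  have f2 : perc (EL a b) ≠ ⊤ := measure_ne_top _ _
  have key : ∀ x y s t : ENNReal, x ≤ s → y ≤ t → s + t = 1 → 1 ≤ x + y → x ≠ ⊤ → y ≠ ⊤ →
      x = s ∧ y = t := by
    intro x y s t hx hy hst hxy hxt hyt
    have ht : t ≠ ⊤ := by rintro rfl; simp at hst
    have hs : s ≠ ⊤ := by rintro rfl; simp at hst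
    constructor
    · apply le_antisymm hx
      by_contra hlt
      push Not at hlt
      have h1 : x + y < s + t := ENNReal.add_lt_add_of_lt_of_le hyt hlt hy
      rw [hst] at h1
      exact absurd hxy (not_le.2 h1)
    · apply le_antisymm hy
      by_contra hlt
      push Not at hlt
      have h1 : x + y < s + t := ENNReal.add_lt_add_of_le_of_lt hxt hx hlt
      rw [hst] at h1
      exact absurd hxy (not_le.2 h1)
  exact key _ _ _ _ u1 u2 tot full f1 f2

end Pool.Agent.H492E
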