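import Pool.Agent.H492E.Defs

/-!
Task E8: measurability of the two events.
-/

namespace Pool.Agent.H492E

open Pool.Agent.H988R2.Perc hiding X
open Pool.Agent.H31C Finset MeasureTheory

theorem E8_edge (e : Edge) : MeasurableSet {ω : Conf | ω e = true} := by
  have h : Measurable (fun ω : Conf => ω e) := measurable_pi_apply e
  exact h (measurableSet_singleton true)

theorem E8_open (x y : ℤ × ℤ) : MeasurableSet {ω : Conf | OpenAdj ω x y} := by
  have h1 : MeasurableSet {ω : Conf | y = (x.1 + 1, x.2) ∧ ω (x.1, x.2, false) = true} :=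
    (MeasurableSet.const _).inter (E8_edge _)
  have h2 : MeasurableSet {ω : Conf | x = (y.1 + 1, y.2) ∧ ω (y.1, y.2, false) = true} :=
    (MeasurableSet.const _).inter (E8_edge _)
  have h3 : MeasurableSet {ω : Conf | y = (x.1, x.2 + 1) ∧ ω (x.1, x.2, true) = true} :=
    (MeasurableSet.const _).inter (E8_edge _)
  have h4 : MeasurableSet {ω : Conf | x = (y.1, y.2 + 1) ∧ ω (y.1, y.2, true) = true} :=
    (MeasurableSet.const _).inter (E8_edge _)
  exact h1.union (h2.union (h3.union h4))

theorem E8_slit (a L : ℕ) (x y : ℤ × ℤ) : MeasurableSet {ω : Conf | SlitAdj a L ω x y} :=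
  (E8_open x y).inter (MeasurableSet.const _)

theorem E8_step (a L : ℕ) (s t : (ℤ × ℤ) × Fin 4) :
    MeasurableSet {ω : Conf | step a L ω s = t} := by
  by_cases h : Bank a s.1 ∧ s.2 = 0
  · have : {ω : Conf | step a L ω s = t} = {_ω : Conf | (s.1 + (1, 1), (2 : Fin 4)) = t} := by
      ext ω
      simp only [Set.mem_ofPred_eq, step, if_pos h]
    rw [this]
    exact MeasurableSet.const _
  · have : {ω : Conf | step a L ω s = t} =
        ({ω : Conf | SlitAdj a L ω s.1 (s.1 + vec s.2)} ∩
          {_ω : Conf | (s.1 + vec s.2, s.2 + 1) = t}) ∪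
        ({ω : Conf | SlitAdj a L ω s.1 (s.1 + vec s.2)}ᶜ ∩
          {_ω : Conf | (s.1, s.2 + 3) = t}) := by
      ext ω
      simp only [Set.mem_ofPred_eq, step, if_neg h, Set.mem_union, Set.mem_inter_iff,
        Set.mem_compl_iff]
      by_cases h' : SlitAdj a L ω s.1 (s.1 + vec s.2)
      · rw [if_pos h']
        simp only [h', true_and, not_true_eq_false, false_and, or_false]
      · rw [if_neg h']
        simp only [h', false_and, not_false_eq_true, true_and, false_or]
    rw [this]
    exact ((E8_slit a L _ _).inter (MeasurableSet.const _)).union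
      ((E8_slit a L _ _).compl.inter (MeasurableSet.const _))

theorem E8_walk (a b n : ℕ) : Measurable (fun ω : Conf => walk a b ω n) := by
  induction n with
  | zero =>
    have : (fun ω : Conf => walk a b ω 0) = fun _ => start a := by
      funext ω
      rfl
    rw [this]
    exact measurable_const
  | succ n ih =>
    apply measurable_to_countable'
    intro t
    have : (fun ω : Conf => walk a b ω (n+1)) ⁻¹' {t} =
        ⋃ s : (ℤ × ℤ) × Fin 4, ((fun ω : Conf => walk a b ω n) ⁻¹' {s}) ∩
          {ω : Conf | step a (a+b+1) ω s = t} := by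
      ext ω
      simp only [Set.mem_preimage, Set.mem_singleton_iff, Set.mem_iUnion, Set.mem_inter_iff,
        Set.mem_ofPred_eq]
      have h1 : walk a b ω (n+1) = step a (a+b+1) ω (walk a b ω n) := by
        unfold walk
        rw [Function.iterate_succ_apply']
      rw [h1]
      constructor
      · intro h
        exact ⟨_, rfl, h⟩
      · rintro ⟨s, hs, h⟩
        rw [hs]
        exact h
    rw [this]
    exact MeasurableSet.iUnion fun s => (ih (measurableSet_singleton s)).inter (E8_step _ _ _ _)

theorem E8_meas (a b : ℕ) : MeasurableSet (ER a b) ∧ MeasurableSet (EL a b) := by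
  have key : ∀ (P : (ℤ × ℤ) × Fin 4 → Prop) (n : ℕ),
      MeasurableSet {ω : Conf | P (walk a b ω n)} := by
    intro P n
    exact (E8_walk a b n) (MeasurableSet.of_discrete (s := {s | P s}))
  constructor
  · have : ER a b = ⋃ n : ℕ, ({ω : Conf | hitR a b (walk a b ω n)} ∩
        ⋂ m : ℕ, ⋂ _ : m < n, {ω : Conf | ¬ hitL (walk a b ω m)}) := by
      ext ω
      simp only [ER, Set.mem_ofPred_eq, Set.mem_iUnion, Set.mem_inter_iff, Set.mem_iInter]
    rw [this]
    exact MeasurableSet.iUnion fun n => (key _ n).inter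
      (MeasurableSet.iInter fun m => MeasurableSet.iInter fun _ => key (fun s => ¬ hitL s) m)
  · have : EL a b = ⋃ n : ℕ, ({ω : Conf | hitL (walk a b ω n)} ∩
        ⋂ m : ℕ, ⋂ _ : m < n, {ω : Conf | ¬ hitR a b (walk a b ω m)}) := by
      ext ω
      simp only [EL, Set.mem_ofPred_eq, Set.mem_iUnion, Set.mem_inter_iff, Set.mem_iInter]
    rw [this]
    exact MeasurableSet.iUnion fun n => (key _ n).inter
      (MeasurableSet.iInter fun m => MeasurableSet.iInter fun _ => key (fun s => ¬ hitR a b s) m)

end Pool.Agent.H492E
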