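import Pool.Agent.H492E.Defs
import Pool.Agent.H31C.Stubs

/-! Statements of the exploration path block. Each theorem below is a task. -/

namespace Pool.Agent.H492E

open Pool.Agent.H988R2.Perc hiding X
open Pool.Agent.H31C Finset MeasureTheory Filter Topology

/-! ### task E1: open invariant -/

theorem E1_right (a b : ℕ) (ha : Odd a) (hb : Odd b) : ER a b ⊆ Cross a b := by sorry

/-! ### task E2: dual invariant -/

theorem E2_left (a b : ℕ) (ha : Odd a) (hb : Odd b) :
    EL a b ⊆ {ω | mir (((a + b + 2) / 2 : ℕ) : ℤ) ω ∈ Cross b a} := by sorry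

/-! ### task E3: the mirror image of the dual configuration has the same law -/

theorem E3_map (K : ℤ) : perc.map (mir K) = perc := by sorry

theorem E3_meas (K : ℤ) : Measurable (mir K) := by sorry

/-! ### task E3c: Cross is measurable (countable union over finite paths) -/

theorem E3_cross (a b : ℕ) : MeasurableSet (Cross a b) := by sorry

/-! ### task E4a: the step is injective, its values are never `(z, 3)` with `z` in the bank -/

theorem E4_noStart (a L : ℕ) (ω : Conf) (s : (ℤ × ℤ) × Fin 4) (z : ℤ × ℤ) (hz : Bank a z) :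
    step a L ω s ≠ (z, 3) := by sorry

theorem E4_inj (a L : ℕ) (ω : Conf) (s s' : (ℤ × ℤ) × Fin 4)
    (h1 : ¬ (Bank a s.1 ∧ 2 ≤ s.1.1 + s.1.2 ∧ s.2 = 3))
    (h2 : ¬ (Bank a s'.1 ∧ 2 ≤ s'.1.1 + s'.1.2 ∧ s'.2 = 3))
    (h : step a L ω s = step a L ω s') : s = s' := by sorry

/-! ### task E4b: confinement -/

theorem E4_conf (a b : ℕ) (ha : Odd a) (hb : Odd b) (ω : Conf) (h : Barr a b ω) :
    ∃ F : Finset ((ℤ × ℤ) × Fin 4), ∀ n, (∀ m < n, ¬ hitL (walk a b ω m)) →
      (∀ m < n, ¬ hitR a b (walk a b ω m)) → walk a b ω n ∈ F := by sorry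

/-! ### task E4c: the path stops (from E4a, E4b) -/

theorem E4_stop (a b : ℕ) (ha : Odd a) (hb : Odd b) (ω : Conf) (h : Barr a b ω) :
    ω ∈ ER a b ∪ EL a b := by sorry

/-! ### task E5: the barriers exist almost surely -/

theorem E5_barr (a b : ℕ) : ∀ᵐ ω ∂perc, Barr a b ω := by sorry

/-! ### task E6: the weights add up to 1 -/

theorem E6_sum (a b : ℕ) :
    ∑ k ∈ range (a+1), bw (a+b+1) k + ∑ k ∈ range (b+1), bw (b+a+1) k = 1 := by sorry

/-! ### task E7: assembly -/

theorem E7_exact (hX : S_Exact) (a b : ℕ) (ha : Odd a) (hb : Odd b) :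
    perc (ER a b) = ENNReal.ofReal (∑ k ∈ range (a+1), bw (a+b+1) k) ∧
    perc (EL a b) = ENNReal.ofReal (∑ k ∈ range (b+1), bw (b+a+1) k) := by sorry

/-! ### task E8: measurability of the two events -/

theorem E8_meas (a b : ℕ) : MeasurableSet (ER a b) ∧ MeasurableSet (EL a b) := by sorry

end Pool.Agent.H492E
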